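import Pool.Agent.Y835.SE.Fin

/-!
# The proportion of the rows of a Maier matrix which contain a prime

All known large gaps between primes are found in the rows `(N, N + H]`, `N ≡ b` modulo `q`, of a Maier
matrix: by the choice of `b` few of the numbers `b + h`, `1 ≤ h ≤ H`, are coprime to `q`, and only the
corresponding columns contain primes.  Heuristically a row contains on average

  `E = (q / φ(q)) #{1 ≤ h ≤ H : (b + h, q) = 1} / log X`

primes (up to constants, for `N` between `X` and a power of `X`).

The theorem determines the order of magnitude of the proportion of the rows which contain a prime, for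
every residue class `b` to every modulus `q ≤ X ^ (1/16)` which is divisible by the primes up to
`3 log log X` and not by one possible exceptional modulus `q₁ ≥ 2` (depending on `X`), and for every
`H ≤ X / 2`: counted with the weights `1/N` it lies between `c min(1, E)` and `C min(1, E)`, and at least
the proportion `c min(1, E)` of the rows contains at least `c E` primes.

So the first moment decides: a Maier matrix has rows without primes in the proportion `1 - O(E)` if `E`
is small, while for `E ≥ 1` always a positive proportion of the rows contains a prime, in fact a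
positive proportion of the expected number.  A bound of Cramér's kind can be refuted by counting in
such a matrix only if a class `b` leaves fewer than `C (φ(q) / q) log X` of the first `H` numbers
`b + h` uncovered.

Proof.  The first moment: a lower bound of Linnik's kind of the right order of magnitude, for the
primes in all classes modulo `q` (zeros of Dirichlet L-functions near `1`; Landau's and Page's
arguments), and an upper bound sieve.  The second moment: Selberg's sieve for pairs of primes in a
residue class, where the singular series is bounded as all small primes divide `q`, for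
`H ≤ (log X) ^ (5/2)`; for larger `H` the linear sieve beyond its sifting limit shows that `E` has the
order of magnitude of `H / log X`, and the average of the singular series over the columns is bounded.
-/

set_option autoImplicit false

namespace Pool.Agent.Results.MP_69be96_nt.MaierMatrixLaw

open Finset

/-- the integers `N` with `X / 2 < N ≤ X ^ K` and `N ≡ b` modulo `q` -/
def rows (X K q b : ℕ) : Finset ℕ := (Ioc (X / 2) (X ^ K)).filter (fun N => N % q = b % q)

/-- the number of primes in the interval `(N, N + H]` -/
def primesIn (N H : ℕ) : ℕ := ((Icc 1 H).filter (fun h => (N + h).Prime)).card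

/-- the number `E = (q / φ(q)) #{1 ≤ h ≤ H : (b + h, q) = 1} / log X` -/
noncomputable def expected (X q b H : ℕ) : ℝ :=
  (q : ℝ) / q.totient * ((Icc 1 H).filter (fun h => (b + h).Coprime q)).card / Real.log X

theorem result : ∃ (K : ℕ) (c C : ℝ) (X₀ : ℕ), 1 ≤ K ∧ 0 < c ∧ 0 < C ∧ ∀ X : ℕ, X₀ ≤ X →
    ∃ q₁ : ℕ, 2 ≤ q₁ ∧ ∀ q b H : ℕ, 0 < q → q ^ 16 ≤ X → ¬ q₁ ∣ q →
      (∀ p : ℕ, p.Prime → (p : ℝ) ≤ 3 * Real.log (Real.log X) → p ∣ q) → 2 * H ≤ X →
      c * (min 1 (expected X q b H) * ∑ N ∈ rows X K q b, 1 / (N : ℝ)) ≤
        ∑ N ∈ (rows X K q b).filter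
          (fun N : ℕ => 1 ≤ primesIn N H ∧ c * expected X q b H ≤ primesIn N H), 1 / (N : ℝ) ∧
      ∑ N ∈ (rows X K q b).filter (fun N => 1 ≤ primesIn N H), 1 / (N : ℝ) ≤
        C * (min 1 (expected X q b H) * ∑ N ∈ rows X K q b, 1 / (N : ℝ)) := by
  obtain ⟨K, c, C, X0, hK, hc, hC, H⟩ := Pool.Agent.Y835.SE.law2
  refine ⟨K, c, C, X0, hK, hc, hC, fun X hX => ?_⟩
  obtain ⟨q₁, hq₁, H1⟩ := H X hX
  refine ⟨q₁, hq₁, fun q b H' hq hqX hnd hsm hH => ?_⟩
  obtain ⟨h1, h2⟩ := H1 q b H' hq hqX hnd hsm hH
  refine ⟨le_trans (le_of_eq rfl) (h1.trans (le_of_eq ?_)), (le_of_eq ?_).trans h2⟩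
  · unfold rows Pool.Agent.Y835.SC.II
    congr!
  · unfold rows Pool.Agent.Y835.SC.II
    congr!

end Pool.Agent.Results.MP_69be96_nt.MaierMatrixLaw
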