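import Pool.Agent.Y835.SC.Fin3

/-!
# Rows of Maier matrices contain many primes in intervals of length `(log X) ^ (2 + ε)`

Every known proof that there are large gaps between primes finds the gap in a row of a Maier matrix:
for a well chosen residue class `b` modulo `q` (`q` a product of primes `p ≤ y`, about `X` in size up
to a power) the integers `b + h`, `1 ≤ h ≤ H`, mostly have a common factor with `q`, and the intervals
`(N, N + H]` with `N ≡ b` modulo `q` are searched for one without primes.

The theorem concerns the primes themselves.  Let `η` be in `(0, 1]`.  There are `K`, `c > 0` such that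
for all large `X` the following holds for all residue classes `b` to all moduli `q ≤ X ^ (1/16)` which
are not multiples of one possible exceptional modulus `q₁ ≥ 2` (depending on `X`): if
`H ≥ (log X) ^ (2 + η)`, then for at least the proportion `c` (with the weights `1/N`) of the
`N ≡ b` modulo `q` in `(X/2, X ^ K]` the interval `(N, N + H]` contains at least `c H / log X` primes,
that is a positive proportion of the expected number.  If the primes `p > (log X) ^ c` which divide
`q` and not `b` have a small sum of reciprocals, as in all constructions of large gaps by the method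
of Erdős and Rankin apart from the primes of the last step, then `H ≥ (log X) ^ (1 + η)` is enough.

So the rows of no Maier matrix with a modulus `q ≤ X ^ (1/16)` (exceptional ones excepted) can all, or
almost all, be free of primes on the length `(log X) ^ (2 + η)`, and for the coverings used so far
already on the length `(log X) ^ (1 + η)`: Cramér's bound cannot be refuted by the first moment on such
a matrix, except for an arbitrarily small change of the exponent.

Proof.  The first moment: a lower bound of Linnik's kind for the primes in the classes `b + h` modulo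
`q` with the right order of magnitude (zeros of Dirichlet L-functions near `1`, Landau's and Page's
arguments; `q₁` is the exceptional modulus) and lower bounds for the number of `h ≤ H` with `b + h`
prime to `q` (the linear sieve beyond its sifting limit, and the theorem on coverings of Erdős-Rankin
type).  The second moment: Selberg's sieve for pairs of primes in a residue class.
-/

set_option autoImplicit false

namespace Pool.Agent.Results.MP_69be96_nt.MaierMatrixLimit

open Finset

/-- the integers `N` with `X / 2 < N ≤ X ^ K` and `N ≡ b` modulo `q` -/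
def rows (X K q b : ℕ) : Finset ℕ := (Ioc (X / 2) (X ^ K)).filter (fun N => N % q = b % q)

/-- the number of primes in the interval `(N, N + H]` -/
def primesIn (N H : ℕ) : ℕ := ((Icc 1 H).filter (fun h => (N + h).Prime)).card

theorem result : ∀ η : ℝ, 0 < η → η ≤ 1 → ∃ (K : ℕ) (c : ℝ) (X₀ : ℕ), 1 ≤ K ∧ 0 < c ∧
    ∀ X : ℕ, X₀ ≤ X → ∃ q₁ : ℕ, 2 ≤ q₁ ∧ ∀ q b H : ℕ, 0 < q → q ^ 16 ≤ X → ¬ q₁ ∣ q → 2 * H ≤ X →
      (Real.log X ^ (2 + η) ≤ H ∨
        (Real.log X ^ (1 + η) ≤ H ∧
          ∑ p ∈ q.primeFactors.filter (fun p : ℕ => Real.log X ^ c < p ∧ ¬ p ∣ b), 1 / (p : ℝ) ≤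
            c)) →
      c * ∑ N ∈ rows X K q b, 1 / (N : ℝ) ≤
        ∑ N ∈ (rows X K q b).filter (fun N : ℕ => c * (H / Real.log X) ≤ primesIn N H),
          1 / (N : ℝ) := by
  intro η hη hη1
  obtain ⟨K, c, X1, hK, hc, hc1, H1⟩ := Pool.Agent.Y835.SC.partD η hη hη1
  obtain ⟨C, X2, hC, H2⟩ := Pool.Agent.Y835.SC.tot K
  obtain ⟨d, hd⟩ : ∃ d : ℝ, d = min c (c / C) := ⟨_, rfl⟩
  have hd0 : 0 < d := by rw [hd]; positivity
  have hdc : d ≤ c := by rw [hd]; exact min_le_left _ _
  have hdC : d ≤ c / C := by rw [hd]; exact min_le_right _ _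
  refine ⟨K, d, max (max X1 X2) 3, hK, hd0, fun X hX => ?_⟩
  simp only [max_le_iff] at hX
  obtain ⟨⟨x1, x2⟩, x3⟩ := hX
  obtain ⟨q₁, hq₁, H1'⟩ := H1 X x1
  refine ⟨q₁, hq₁, fun q b H hq hqX hndvd hHX hcond => ?_⟩
  have hlX : 1 ≤ Real.log X := by
    have h3 : (3 : ℝ) ≤ X := by exact_mod_cast x3
    rw [Real.le_log_iff_exp_le (by linarith)]
    have := Real.exp_one_lt_d9
    linarith
  have hlX0 : 0 < Real.log X := by linarith
  have hq0 : (0 : ℝ) < q := by exact_mod_cast hq
  have h1 := H1' q b H hq hqX hndvd hHX (by
    refine hcond.imp id fun h => ⟨h.1, ?_⟩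
    refine le_trans ?_ (h.2.trans hdc)
    refine sum_le_sum_of_subset_of_nonneg (fun p hp => ?_) fun _ _ _ => by positivity
    rw [mem_filter] at hp ⊢
    refine ⟨hp.1, lt_of_le_of_lt ?_ hp.2.1, hp.2.2⟩
    exact Real.rpow_le_rpow_of_exponent_le hlX hdc)
  have h2 := H2 X x2 q b hq hqX
  have h3 : d * ∑ N ∈ rows X K q b, 1 / (N : ℝ) ≤ c * (Real.log X / q) := by
    calc d * ∑ N ∈ rows X K q b, 1 / (N : ℝ) ≤ c / C * (C * (Real.log X / q)) :=
          mul_le_mul hdC h2 (sum_nonneg fun _ _ => by positivity) (by positivity)
      _ = c * (Real.log X / q) := by field_simp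
  refine h3.trans (h1.trans ?_)
  refine sum_le_sum_of_subset_of_nonneg (fun N hN => ?_) fun _ _ _ => by positivity
  rw [mem_filter] at hN ⊢
  refine ⟨hN.1, le_trans ?_ hN.2⟩
  exact mul_le_mul_of_nonneg_right hdc (by positivity)

end Pool.Agent.Results.MP_69be96_nt.MaierMatrixLimit
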