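import Pool.Agent.Y835.SF.Thr
import Pool.Agent.Y835.SF.Att

set_option autoImplicit false

/-!
# The exact limit of the record method for large gaps between primes

Author: helper835. Write `L = log X` and `f(X) = L (log₂ X)² log₄ X / (log₃ X)²`. The starting files prove that
there are gaps of length `c f(X)` between the primes up to `X` (`RecordGaps`; the best published bound has
`L log₂ X log₄ X / log₃ X`). All proofs of such bounds put a nonnegative weight `w` on the integers `n`,
supported where almost all primes `z < p ≤ L / 1000` divide `n` (Erdős, Rankin), built from squares of sums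
over residue classes to moduli `≤ X` (Maynard; Ford, Green, Konyagin, Maynard, Tao; a single class is a special
case), and make the mean of the number of integers without prime factors `≤ X` in `(n, n + U]` smaller than `1`.
We prove that `f(X)` is the exact order of what can be reached in this way.

(1) For all such weights, all `z ≤ L^c` and all `U` with `U log (U / L) ≥ C L log₂ X log z` (and `U ≥ C L log₂ X`)
the mean number of survivors is at least `c U min(1, log (U / L) / log z) / L`, provided that each prime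
`p ∈ (L / 1000, U]` which divides one of the moduli hits at most `log₂ X` (or `r`, if there is more room) of the
survivors of the smaller primes; for `U ≥ C L log₂ X exp(C √(log z))` this condition is not needed.
(2) In particular, with the `z` of the record (`log z ≤ log₂ X log₄ X / log₃ X`), it is at least `log₂ X` for all
`U ≥ C f(X)`; and (3) there are weights of this kind for which it is at most `1 / 2` for all `U ≤ c f(X)`. So no
choice of the weight comes near the length `L²` of Cramér's conjecture, or even `L (log₂ X)²`.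

Proofs. (1), (2): the survivors of the small primes are bounded from below on the support of `w`
(`Pool.Agent.Y835.SC`, `SF.Er`); the primes `p > L / 1000` are taken one after the other, and for every site the
loss is bounded by the part of the square root of the weight orthogonal to the functions not depending on the
coordinate at `p`; these parts satisfy a level inequality (`SF.Fib`, `SF.Core`, `SF.Cap`). The new point is that
a prime `p` costs only a small multiple of `1/p` when its orthogonal part is charged with a weight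
`log X / log p`, so the capacity is `c log X` survivors, and not `log X / log log X`. (3): the abstract covering
sieve of the starting files (`Pool.Agent.H256R2.SC`, helper256) and Rankin's choice (`Pool.Agent.H398R2.RK`).
-/

open Finset

namespace Pool.Agent.Results.MP_69be96_nt.RecordMethodLimit

/-- `log log X` -/
noncomputable def log2 (X : ℕ) : ℝ := Real.log (Real.log X)

/-- `log log log X` -/
noncomputable def log3 (X : ℕ) : ℝ := Real.log (log2 X)

/-- `log log log log X` -/
noncomputable def log4 (X : ℕ) : ℝ := Real.log (log3 X)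

/-- the length of the record: `f(X) = log X (log₂ X)² log₄ X / (log₃ X)²` -/
noncomputable def len (X : ℕ) : ℝ := Real.log X * log2 X ^ 2 * log4 X / log3 X ^ 2

/-- `w` is a finite sum of squares of functions of level `X`: the periods `d ∈ D` satisfy `1 ≤ d ≤ X`, and
`w = ∑_j (∑_{d ∈ D} v_{j,d})²`, where `v_{j,d}` is a real function with period `d` -/
def Squares (X : ℕ) (D : Finset ℕ) (w : ℕ → ℝ) : Prop :=
  (∀ d ∈ D, 1 ≤ d ∧ d ≤ X) ∧ ∃ (m : ℕ) (v : ℕ → ℕ → ℕ → ℝ),
    (∀ j, ∀ d ∈ D, ∀ n, v j d (n + d) = v j d n) ∧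
    ∀ n, w n = ∑ j ∈ range m, (∑ d ∈ D, v j d n) ^ 2

/-- on the support of `w`, the primes `z < p ≤ (log X) / 1000` which do not divide `n` have a sum of
reciprocals at most `7 / (log log X)²` -/
def Zero (X z : ℕ) (w : ℕ → ℝ) : Prop :=
  ∀ n, w n ≠ 0 → ∑ p ∈ (Icc 1 X).filter (fun p => p.Prime ∧ z < p ∧ (p : ℝ) ≤ Real.log X / 1000 ∧ ¬ p ∣ n),
    1 / (p : ℝ) ≤ 7 / log2 X ^ 2

/-- the number of `h` with `1 ≤ h ≤ U` such that `n + h` has no prime factor `≤ X` -/
def rough (X U n : ℕ) : ℕ := ((Icc 1 U).filter (fun h => ∀ p ∈ (Icc 1 X).filter Nat.Prime, ¬ p ∣ n + h)).card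

/-- the weights of the record method: `z` is at most of the size used there, and the periods are not
divisible by primes between `(log X) / 1000` and `(log X)²` -/
def Record (X z : ℕ) (D : Finset ℕ) (w : ℕ → ℝ) : Prop :=
  log2 X ^ 2 ≤ z ∧ Real.log z ≤ log2 X * log4 X / log3 X ∧ Squares X D w ∧ Zero X z w ∧
    ∀ d ∈ D, ∀ p : ℕ, p.Prime → Real.log X / 1000 < p → (p : ℝ) ≤ Real.log X ^ 2 → ¬ p ∣ d

/-- the factor `min(1, log(U / log X) / log z)` -/
noncomputable def gain (X U z : ℕ) : ℝ := min 1 (Real.log (U / Real.log X) / Real.log z)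

open Classical in
/-- the number of `h` with `1 ≤ h ≤ U` such that `n + h` is divisible by `p` and by no prime
`q ≤ (log X) / 1000` -/
noncomputable def hits (X U p n : ℕ) : ℕ :=
  ((Icc 1 U).filter (fun h => p ∣ n + h ∧ ∀ q : ℕ, q.Prime → (q : ℝ) ≤ Real.log X / 1000 → ¬ q ∣ n + h)).card

/-- the length `U` exceeds the capacity of the weight: either `C r log X ≤ U min(1, log(U / log X) / log z)` for
some `r ≥ log log X` such that on the support of `w` every prime in `((log X) / 1000, U]` dividing some period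
hits at most `r` of the remaining `n + h`, or `U ≥ C log X log log X exp(C √(log z))` -/
def Long (C : ℝ) (X U z : ℕ) (D : Finset ℕ) (w : ℕ → ℝ) : Prop :=
  (∃ r : ℝ, log2 X ≤ r ∧ C * (r * Real.log X) ≤ U * gain X U z ∧
    ∀ n, w n ≠ 0 → ∀ p : ℕ, p.Prime → Real.log X / 1000 < p → p ≤ U → (∃ d ∈ D, p ∣ d) →
      (hits X U p n : ℝ) ≤ r) ∨
  C * (Real.log X * log2 X) * Real.exp (C * √(Real.log z)) ≤ U

/-- the sum over the primes in the support condition -/
theorem zero_iff (X z n : ℕ) :
    (Icc 1 X).filter (fun p => p.Prime ∧ z < p ∧ (p : ℝ) ≤ Real.log X / 1000 ∧ ¬ p ∣ n) =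
      ((Icc 1 X).filter Nat.Prime).filter (fun p : ℕ => z < p ∧ p ≤ Pool.Agent.H378R2.yy X ∧ ¬ p ∣ n) := by
  rw [filter_filter]
  refine filter_congr fun p hp => ?_
  unfold Pool.Agent.H378R2.yy
  rw [Nat.le_floor_iff' (by have := (mem_Icc.1 hp).1; omega)]

open Classical in
theorem hits_eq (X U p n : ℕ) (hX : 0 ≤ Real.log (X : ℝ) / 1000) :
    hits X U p n = ((Icc 1 U).filter (fun h => p ∣ n + h ∧
      ∀ q : ℕ, q.Prime → q ≤ Pool.Agent.H378R2.yy X → ¬ q ∣ n + h)).card := by
  unfold hits Pool.Agent.H378R2.yy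
  congr 1
  refine filter_congr fun h _ => and_congr_right fun _ => ?_
  refine forall₂_congr fun q hq => ?_
  rw [Nat.le_floor_iff hX]

/-- a vanishing sum of squares -/
theorem ne_of_ne {m : ℕ} {D : Finset ℕ} {w : ℕ → ℝ} {v : ℕ → ℕ → ℕ → ℝ}
    (hw : ∀ n, w n = ∑ j ∈ range m, (∑ d ∈ D, v j d n) ^ 2) {j : ℕ} (hj : j ∈ range m) {n : ℕ}
    (h : (∑ d ∈ D, v j d n) ≠ 0) : w n ≠ 0 := by
  rw [hw]
  have h1 : (∑ d ∈ D, v j d n) ^ 2 ≤ ∑ j ∈ range m, (∑ d ∈ D, v j d n) ^ 2 :=
    single_le_sum (f := fun j => (∑ d ∈ D, v j d n) ^ 2) (fun i _ => sq_nonneg _) hj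
  have h2 : 0 < (∑ d ∈ D, v j d n) ^ 2 := by positivity
  linarith

/-- (1) The general bound; (2), (3) with the `z` of the record, the limit of the method is `f(X)`, up to
constants. -/
theorem result :
    (∃ c C : ℝ, 0 < c ∧ 0 < C ∧ ∃ X₀ : ℕ, ∀ X : ℕ, X₀ ≤ X → ∀ (U z : ℕ) (D : Finset ℕ) (w : ℕ → ℝ),
      log2 X ^ 2 ≤ z → (z : ℝ) ≤ Real.log X ^ c → Squares X D w → Zero X z w → Long C X U z D w →
        c * (U * gain X U z / Real.log X) * ∑ n ∈ range X.factorial, w n ≤
          ∑ n ∈ range X.factorial, w n * rough X U n) ∧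
    (∃ C : ℝ, 0 < C ∧ ∃ X₀ : ℕ, ∀ X : ℕ, X₀ ≤ X → ∀ (z : ℕ) (D : Finset ℕ) (w : ℕ → ℝ), Record X z D w →
      ∀ U : ℕ, C * len X ≤ U →
        log2 X * ∑ n ∈ range X.factorial, w n ≤ ∑ n ∈ range X.factorial, w n * rough X U n) ∧
    (∃ c : ℝ, 0 < c ∧ ∃ X₀ : ℕ, ∀ X : ℕ, X₀ ≤ X → ∃ (z : ℕ) (D : Finset ℕ) (w : ℕ → ℝ), Record X z D w ∧
      0 < ∑ n ∈ range X.factorial, w n ∧ ∀ U : ℕ, (U : ℝ) ≤ c * len X →
        ∑ n ∈ range X.factorial, w n * rough X U n ≤ 1 / 2 * ∑ n ∈ range X.factorial, w n) := by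
  refine ⟨?_, ?_, ?_⟩
  · obtain ⟨c, C, hc, -, hC, X0, H⟩ := Pool.Agent.Y835.SG.intF
    refine ⟨c, C, hc, hC, max X0 1, fun X hX U z D w hz hzL hw hsupp hlong => ?_⟩
    have hX1 : 1 ≤ X := (le_max_right _ _).trans hX
    have hX0 : 0 ≤ Real.log (X : ℝ) / 1000 := by
      have : 0 ≤ Real.log (X : ℝ) := Real.log_natCast_nonneg X
      positivity
    obtain ⟨hD, m, v, hv, hwv⟩ := hw
    have h := H X ((le_max_left _ _).trans hX) U z hz hzL (gain X U z) rfl (range m) (fun _ => D)
      (fun _ d => d) v (fun j _ d hd => ⟨(hD d hd).1, (hD d hd).2, hv j d hd⟩) (fun j hj n hn => by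
        have h1 := hsupp n (ne_of_ne hwv hj hn)
        rwa [zero_iff] at h1) (by
        rcases hlong with ⟨r, hr1, hr2, hr3⟩ | h1
        · refine Or.inl ⟨r, hr1, hr2, fun j hj n hn p hp hYp hpU hpd => ?_⟩
          have h2 := hr3 n (ne_of_ne hwv hj hn) p hp ((Nat.floor_lt hX0).1 hYp) hpU hpd
          rw [hits_eq X U p n hX0] at h2
          exact h2
        · exact Or.inr h1)
    simp only [← hwv] at h
    exact h
  · obtain ⟨C, hC, X0, H⟩ := Pool.Agent.Y835.SG.thr
    refine ⟨C, hC, X0, fun X hX z D w hw U hU => ?_⟩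
    obtain ⟨hz, hlz, ⟨hD, m, v, hv, hwv⟩, hsupp, hp⟩ := hw
    have h := H X hX U z hz hlz hU (range m) (fun _ => D) (fun _ d => d) v
      (fun j _ d hd => ⟨(hD d hd).1, (hD d hd).2, hv j d hd⟩)
      (fun j _ d hd p hpp h1 h2 => hp d hd p hpp h1 h2) (fun j hj n hn => by
        have h1 := hsupp n (ne_of_ne hwv hj hn)
        rwa [zero_iff] at h1)
    simp only [← hwv] at h
    exact h
  · obtain ⟨c, hc, X0, H⟩ := Pool.Agent.Y835.SH.attain
    refine ⟨c, hc, X0, fun X hX => ?_⟩
    obtain ⟨z, D, f, h1, h2, h3, h4, h5, h6, h7, h8⟩ := H X hX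
    refine ⟨z, D, fun n => (∑ d ∈ D, f d n) ^ 2, ⟨h1, h2, ⟨fun d hd => h3 d hd, 1, fun _ => f,
      fun _ => h5, fun n => by simp⟩, ?_, h4⟩, h7, fun U hU => h8 U hU⟩
    intro n hn
    have hn' : (∑ d ∈ D, f d n) ≠ 0 := fun h => hn (by simp [h])
    rw [filter_false_of_mem]
    · rw [sum_empty]
      positivity
    · rintro p - ⟨hp, hzp, hpy, hpn⟩
      exact hpn (h6 n hn' p hp hzp hpy)

end Pool.Agent.Results.MP_69be96_nt.RecordMethodLimit
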