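import Pool.Agent.Y835.SB.Fin3

/-!
# Squared sieve weights cannot certify prime-free intervals longer than `(log R) ^ (2 + ε)`

All methods known to produce long prime-free intervals choose a nonnegative weight on the integers
`n` (the indicator function of a residue class for Westzynthius, Erdős and Rankin, the squared
divisor sums of Goldston-Pintz-Yıldırım and Maynard-Tao in the recent records) under which
`(n, n + y]` contains on average few integers without small prime factors.  The theorem bounds what
such weights can do.  Let `V` be any sieve weight of level `R`, that is, a finite sum of functions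
of periods at most `R` (equivalently a linear combination of indicator functions of residue classes
to moduli at most `R`, with arbitrary real coefficients: for example any Selberg or Maynard-Tao
divisor sum; the moduli need not be squarefree), and let `P` be any finite set of primes.

For every `A > 2` there are `c(A) > 0` and `C(A)` such that for `y ≥ C(A) (log R) ^ A` the mean with
respect to `V²` of the number of `n + h`, `1 ≤ h ≤ y`, free of the primes of `P` is at least `c(A)`
times the mean `y ∏_{p ∈ P} (1 - 1/p)` for the uniform weight, and `c(A)` tends to `1` as `A` tends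
to infinity.

In particular, if the weight certifies by averaging that some `(n, n + y]` contains no integer free
of the primes of `P` (the mean is below `1`), where `R` and the primes of `P` are at most `X`, then
`y ≤ C (log X) ^ A`: Cramér's bound, up to an arbitrarily small change of the exponent, cannot be
refuted in this way.  For the indicator function of one residue class the existence of one integer
free of the primes of `P` is Iwaniec's bound for the Jacobsthal function.

Proof.  For one site `h` the primes `p > W = y ^ (1 / (2 + ε'))` are taken one after the other: on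
every fibre of the coordinate modulo the power of `p` in `N`, the mass off the class `p ∣ n + h` is at
least `(1 - 1/p)` times `(1 - τ/p)` times the mass, minus `1 + 4/τ` times the part of
`V - A_p V` on the class (`A_p` the average over the coordinate).  Summed over the sites, the last
terms contribute at most `∑_p log p (y/p + 1) ‖V - A_p V‖² ≤ (y/W + 1) log R ‖V‖²` (a level
inequality, by an analysis of variance over the primes), which is negligible as `W` exceeds
`(log R) ^ (1 + ε'')`.  The primes `p ≤ W` are handled pointwise by the linear sieve beyond its
sifting limit (its functions are those of the DC project of the starting files), for arbitrary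
subsets `P` by a decomposition into multiples, and for large `A` by the fundamental lemma.
-/

set_option autoImplicit false

namespace Pool.Agent.Results.MP_69be96_nt.SieveWeightBarrier

open Finset

/-- `V` has level `R` on the period `N`: it is a finite sum of periodic functions whose periods are
at most `R` and divide `N` -/
def Level (N : ℕ) (R : ℝ) (V : ℕ → ℝ) : Prop :=
  ∃ (I : Finset ℕ) (d : ℕ → ℕ) (f : ℕ → ℕ → ℝ),
    (∀ i ∈ I, 0 < d i ∧ (d i : ℝ) ≤ R ∧ d i ∣ N ∧ ∀ n, f i (n + d i) = f i n) ∧
    ∀ n, V n = ∑ i ∈ I, f i n

/-- the number of `h` with `1 ≤ h ≤ y` such that `n + h` is divisible by no prime of `P` -/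
def free (P : Finset ℕ) (y n : ℕ) : ℕ := ((Icc 1 y).filter (fun h => ∀ p ∈ P, ¬ p ∣ n + h)).card

theorem result : ∃ c : ℝ → ℝ, (∀ A, 2 < A → 0 < c A) ∧
    Filter.Tendsto c Filter.atTop (nhds 1) ∧
    ∀ A, 2 < A → ∃ C : ℝ, 0 < C ∧ ∀ (R : ℝ) (y : ℕ), 2 ≤ R → C * Real.log R ^ A ≤ y →
      ∀ (P : Finset ℕ) (N : ℕ) (V : ℕ → ℝ), (∀ p ∈ P, p.Prime ∧ p ∣ N) → 0 < N → Level N R V →
        c A * (y * ∏ p ∈ P, (1 - 1 / (p : ℝ))) * ∑ n ∈ range N, V n ^ 2 ≤
          ∑ n ∈ range N, V n ^ 2 * free P y n := by
  obtain ⟨c, hc, hlim, H⟩ := Pool.Agent.Y835.SB.barrier_all
  refine ⟨c, hc, hlim, fun A hA => ?_⟩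
  obtain ⟨C, hC, H1⟩ := H A hA
  refine ⟨C, hC, fun R y hR hy P N V hP hN hV => ?_⟩
  obtain ⟨I, d, f, hf, hVn⟩ := hV
  have h := H1 R y hR hy P (fun p hp => (hP p hp).1) I d f
    (fun i hi => ⟨(hf i hi).1, (hf i hi).2.1, (hf i hi).2.2.2⟩) N hN (fun p hp => (hP p hp).2)
    (fun i hi => (hf i hi).2.2.1)
  simp only [← hVn] at h
  unfold free
  convert h

end Pool.Agent.Results.MP_69be96_nt.SieveWeightBarrier
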